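import Pool.Agent.helper32.PN.Spec

set_option autoImplicit false

namespace Pool.Agent.PN

open Module Polynomial Pool.Agent.helper27.PC

theorem TAU (hEVA : EVA_stmt) (hEVB : EVB_stmt) (hEXC1 : EXC1_stmt) (hEXC2 : EXC2_stmt)
    (hEVN : EVN_stmt) : TAU_stmt := by
  intro t τ hne hs h2
  by_cases hev : ∃ a ∈ τ, Even a
  · exact hEVN t τ hs h2 hev
  · have hodd : ∀ a ∈ τ, Odd a := fun a ha => by
      rw [← Nat.not_even_iff_odd]
      exact fun h => hev ⟨a, ha, h⟩
    obtain ⟨hE33, hE35, hD33⟩ := hEXC1
    obtain ⟨hB3, hD3, hD35⟩ := hEXC2
    match τ, hne, hs, h2, hodd with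
    | [c], _, _, h2, hodd =>
      have h1 := hodd c (by simp)
      have h3 := h2 c (by simp)
      by_cases h5 : 5 ≤ c
      · exact (hEVB t c h1).1 h5
      · obtain ⟨m, hm⟩ := h1
        have hc : c = 3 := by omega
        subst hc
        cases t
        · exact hD3
        · exact hB3
    | [c, d], _, hs, h2, hodd =>
      obtain ⟨g, hg⟩ := hodd c (by simp)
      have h3 := h2 c (by simp)
      have hcd : c ≤ d := by
        have := List.rel_of_pairwise_cons hs (show d ∈ [d] by simp)
        exact this
      by_cases h5 : 5 ≤ c
      · apply hEVA t [c, d] g (by omega) hs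
        · intro a ha
          refine ⟨hodd a ha, ?_⟩
          have : a = c ∨ a = d := by simpa using ha
          rcases this with h | h
          · omega
          · omega
        · rw [← hg]
          simp
        · simp
          omega
      · have hc : c = 3 := by omega
        subst hc
        obtain ⟨e, he⟩ := hodd d (by simp)
        by_cases h7 : 7 ≤ d
        · exact (hEVB t d ⟨e, he⟩).2 h7
        · have hd : d = 3 ∨ d = 5 := by omega
          rcases hd with h | h
          · subst h
            cases t
            · exact hD33
            · exact hE33
          · subst h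
            cases t
            · exact hD35
            · exact hE35
    | c :: d :: e :: l, _, hs, h2, hodd =>
      obtain ⟨g, hg⟩ := hodd c (by simp)
      have h3 := h2 c (by simp)
      apply hEVA t (c :: d :: e :: l) g (by omega) hs
      · intro a ha
        refine ⟨hodd a ha, ?_⟩
        rcases List.mem_cons.1 ha with h | h
        · omega
        · have := List.rel_of_pairwise_cons hs h
          omega
      · rw [← hg]
        exact List.mem_cons_self
      · simp only [List.length_cons]
        have : 2 * g ≤ (l.length + 1 + 1 + 1 - 1) * g := Nat.mul_le_mul_right g (by omega)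
        omega

end Pool.Agent.PN
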